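import Pool.Agent.W_7d29a1_S42.Ext

/-!
Theorem S (proofs row 628): continuation of an event, with probability `1 / 2`. (helper42)
-/

namespace Pool.Agent.W_7d29a1_S42

open MeasureTheory ProbabilityTheory Filter Topology
open Pool.Agent.W_7d29a1_F Pool.Agent.W_7d29a1_h60 Pool.Agent.W_7d29a1_L78 Pool.Agent.W_7d29a1_h4g Pool.Agent.W_7d29a1_G

noncomputable section

variable {μ : Measure ℝ} [IsProbabilityMeasure μ] {s : ℝ}

theorem io_and (P Q : Prop) : io (P ∧ Q) = io P * io Q := by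
  by_cases hP : P
  · by_cases hQ : Q
    · rw [io_of (And.intro hP hQ), io_of hP, io_of hQ, one_mul]
    · rw [io_not (fun h : P ∧ Q => hQ h.2), io_not hQ, mul_zero]
  · rw [io_not (fun h : P ∧ Q => hP h.1), io_not hP, zero_mul]

/-- The indicators of two events of disjoint sets of sites. -/
theorem real_indep {B G : Env → Prop} {R₁ R₂ : Set Pt} (hBm : MeasurableSet {η | B η}) (hGm : MeasurableSet {η | G η})
    (hBd : ∀ η η' : Env, (∀ p ∈ R₁, η p = η' p) → (B η ↔ B η'))
    (hGd : ∀ η η' : Env, (∀ p ∈ R₂, η p = η' p) → (G η ↔ G η')) (hd : Disjoint R₁ R₂) :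
    (law μ).real {η | B η ∧ G η} = (law μ).real {η | B η} * (law μ).real {η | G η} := by
  have h1 : DependsOn (fun η => io (B η)) R₁ := fun η η' h => by
    show io _ = io _
    rw [propext (hBd η η' h)]
  have h2 : DependsOn (fun η => io (G η)) R₂ := fun η η' h => by
    show io _ = io _
    rw [propext (hGd η η' h)]
  have h3 := integral_indep (μ := μ) (measurable_io hBm) (measurable_io hGm) h1 h2 hd
  rw [integral_io_real hBm, integral_io_real hGm] at h3
  rw [← h3, ← integral_io_real (p := fun η => B η ∧ G η) (hBm.inter hGm)]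
  exact integral_congr_ae (Filter.Eventually.of_forall fun η => io_and _ _)

/-- **Continuation.** -/
theorem cont (hEM : Pool.Agent.W_7d29a1_h47.EM μ) (l m : ℕ) {B G : Env → Prop} (hBm : MeasurableSet {η | B η})
    (hBd : ∀ η η' : Env, (∀ p ∈ rows 0 (l : ℤ), η p = η' p) → (B η ↔ B η')) {c : ℤ → Env → ℝ}
    (hcm : ∀ k, Measurable (c k)) (hc0 : ∀ k η, 0 ≤ c k η) (hcz : ∀ k, k ∉ Finset.Icc (0 : ℤ) l → ∀ η, c k η = 0)
    (hcd : ∀ k, DependsOn (c k) (rows 0 (l : ℤ))) (hcB : ∀ η, B η → 0 < ∑ k ∈ Finset.Icc (0 : ℤ) l, c k η)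
    {A : ℝ} (hA : 0 < A) (href : ∫ η, max (-V μ s η 0 m) 0 ∂(law μ) ≤ A) (hGm : MeasurableSet {η | G η})
    (hGd : ∀ η η' : Env, (∀ p ∈ rows (l : ℤ) ((l : ℤ) + m), η p = η' p) → (G η ↔ G η'))
    (hG : 3 / 4 ≤ (law μ).real {η | G η}) :
    (law μ).real {η | B η} / 2 ≤ (law μ).real {η | B η ∧ G η ∧ ∑ k ∈ Finset.Icc (0 : ℤ) l,
      (c k η / ∑ j ∈ Finset.Icc (0 : ℤ) l, c j η) * max (-V μ s η ((l : ℤ), k) m) 0 ≤ 4 * A} := by
  obtain ⟨S, hS⟩ : ∃ S : Env → ℝ, S = fun η => ∑ j ∈ Finset.Icc (0 : ℤ) l, c j η := ⟨_, rfl⟩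
  obtain ⟨g, hg⟩ : ∃ g : ℤ → Env → ℝ, g = fun k η => io (B η) * (c k η / S η) := ⟨_, rfl⟩
  have hSm : Measurable S := by
    rw [hS]
    exact Finset.measurable_sum _ fun k _ => hcm k
  have hS0 : ∀ η, 0 ≤ S η := fun η => by
    rw [hS]
    exact Finset.sum_nonneg fun k _ => hc0 k η
  have hgm : ∀ k, Measurable (g k) := fun k => by
    rw [hg]
    exact (measurable_io hBm).mul ((hcm k).div hSm)
  have hg0 : ∀ k η, 0 ≤ g k η := fun k η => by
    rw [hg]
    exact mul_nonneg (io_nonneg _) (div_nonneg (hc0 k η) (hS0 η))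
  have hcS : ∀ k η, c k η ≤ S η := fun k η => by
    by_cases hk : k ∈ Finset.Icc (0 : ℤ) l
    · rw [hS]
      exact Finset.single_le_sum (f := fun k => c k η) (fun k _ => hc0 k η) hk
    · rw [hcz k hk]
      exact hS0 η
  have hg1 : ∀ k η, g k η ≤ 1 := fun k η => by
    rw [hg]
    have h1 : c k η / S η ≤ 1 := div_le_one_of_le₀ (hcS k η) (hS0 η)
    have h2 : 0 ≤ c k η / S η := div_nonneg (hc0 k η) (hS0 η)
    show io (B η) * (c k η / S η) ≤ 1
    nlinarith [io_nonneg (B η), io_le_one (B η)]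
  have hgd : ∀ k, DependsOn (g k) (rows 0 (l : ℤ)) := fun k η η' h => by
    rw [hg]
    have h1 : c k η = c k η' := hcd k h
    have h2 : S η = S η' := by
      rw [hS]
      exact Finset.sum_congr rfl fun j _ => hcd j h
    show io (B η) * (c k η / S η) = io (B η') * (c k η' / S η')
    rw [h1, h2, propext (hBd η η' h)]
  have hgs : ∀ η, ∑ k ∈ Finset.Icc (0 : ℤ) l, g k η = io (B η) := fun η => by
    rw [hg]
    show ∑ k ∈ Finset.Icc (0 : ℤ) l, io (B η) * (c k η / S η) = io (B η)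
    rw [← Finset.mul_sum, ← Finset.sum_div]
    by_cases hB : B η
    · have h1 : ∑ k ∈ Finset.Icc (0 : ℤ) l, c k η = S η := by rw [hS]
      have h2 := hcB η hB
      rw [h1] at h2 ⊢
      rw [div_self h2.ne', mul_one]
    · rw [io_not hB, zero_mul]
  have hAv := integral_Av (μ := μ) (s := s) hEM l m hgm hg0 hg1 hgd hgs href
  have hAvm := measurable_Av (μ := μ) (s := s) (g := g) l m hgm
  have hAv0 := fun η => Av_nonneg (μ := μ) (s := s) (g := g) hg0 l m η
  have hAvi := integrable_Av (μ := μ) (s := s) hEM l m hgm hg0 hg1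
  have hmul : ∀ η, io (B η) * Av μ s g l m η = Av μ s g l m η := fun η => by
    by_cases hB : B η
    · rw [io_of hB, one_mul]
    · rw [io_not hB, zero_mul]
      symm
      unfold Av
      refine Finset.sum_eq_zero fun k _ => ?_
      rw [hg]
      show io (B η) * (c k η / S η) * _ = 0
      rw [io_not hB, zero_mul, zero_mul]
  have h1 := mass_t (μ := μ) (ι := fun η => io (B η)) (R := Av μ s g l m) (measurable_io hBm) (fun η => io_nonneg _)
    (fun η => io_le_one _) hAvm hAv0 hAvi hA (by norm_num : (0 : ℝ) < 4) (by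
      rw [integral_congr_ae (Filter.Eventually.of_forall hmul)]
      exact hAv)
  have hRm : MeasurableSet {η | Av μ s g l m η ≤ 4 * A} := measurableSet_le hAvm measurable_const
  have e1 : ∫ η, io (B η) * io (Av μ s g l m η ≤ 4 * A) ∂(law μ) = (law μ).real {η | B η ∧ Av μ s g l m η ≤ 4 * A} := by
    rw [← integral_io_real (p := fun η => B η ∧ Av μ s g l m η ≤ 4 * A) (hBm.inter hRm)]
    exact integral_congr_ae (Filter.Eventually.of_forall fun η => (io_and _ _).symm)
  rw [e1, integral_io_real hBm] at h1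
  have hd : Disjoint (rows 0 (l : ℤ)) (rows (l : ℤ) ((l : ℤ) + m)) := rows_disj le_rfl
  have h2 : (law μ).real {η | B η ∧ ¬ G η} = (law μ).real {η | B η} * (law μ).real {η | ¬ G η} :=
    real_indep hBm hGm.compl hBd (fun η η' h => not_congr (hGd η η' h)) hd
  have h3 : (law μ).real {η | ¬ G η} ≤ 1 / 4 := by
    have h4 : (law μ).real {η | ¬ G η} = 1 - (law μ).real {η | G η} := probReal_compl_eq_one_sub hGm
    linarith
  have h4 : {η | B η ∧ Av μ s g l m η ≤ 4 * A} ⊆ {η | B η ∧ G η ∧ ∑ k ∈ Finset.Icc (0 : ℤ) l,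
      (c k η / ∑ j ∈ Finset.Icc (0 : ℤ) l, c j η) * max (-V μ s η ((l : ℤ), k) m) 0 ≤ 4 * A} ∪ {η | B η ∧ ¬ G η} := by
    rintro η ⟨h5, h6⟩
    by_cases hG : G η
    · refine Or.inl ⟨h5, hG, ?_⟩
      refine le_trans (le_of_eq ?_) h6
      unfold Av
      refine Finset.sum_congr rfl fun k _ => ?_
      rw [hg, hS]
      show _ = io (B η) * _ * _
      rw [io_of h5, one_mul]
    · exact Or.inr ⟨h5, hG⟩
  have h5 := (measureReal_mono (μ := law μ) h4 (measure_ne_top _ _)).trans (measureReal_union_le _ _)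
  rw [h2] at h5
  have h6 : (law μ).real {η | B η} * (law μ).real {η | ¬ G η} ≤ (law μ).real {η | B η} * (1 / 4) :=
    mul_le_mul_of_nonneg_left h3 measureReal_nonneg
  linarith

end

end Pool.Agent.W_7d29a1_S42
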