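import Pool.Agent.W_7d29a1_h21g.LuckP

/-!
Theorem S (proofs row 628): continuation of an event of the rows `≤ l` to later rows, with the end point averaged by weights
which depend on the rows `≤ l`. (helper42)
-/

namespace Pool.Agent.W_7d29a1_S42

open MeasureTheory ProbabilityTheory Filter Topology
open Pool.Agent.W_7d29a1_F Pool.Agent.W_7d29a1_h60 Pool.Agent.W_7d29a1_L78 Pool.Agent.W_7d29a1_h4g Pool.Agent.W_7d29a1_G

noncomputable section

variable {μ : Measure ℝ} [IsProbabilityMeasure μ] {s : ℝ}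

/-- Markov, relative to an event. -/
theorem mass_t {ι R : Env → ℝ} (hιm : Measurable ι) (hι0 : ∀ η, 0 ≤ ι η) (hι1 : ∀ η, ι η ≤ 1)
    (hRm : Measurable R) (hR0 : ∀ η, 0 ≤ R η) (hRi : Integrable R (law μ)) {A t : ℝ} (hA : 0 < A) (ht : 0 < t)
    (h : ∫ η, ι η * R η ∂(law μ) ≤ A * ∫ η, ι η ∂(law μ)) :
    ∫ η, ι η ∂(law μ) ≤ ∫ η, ι η * io (R η ≤ t * A) ∂(law μ) + (∫ η, ι η ∂(law μ)) / t := by
  have hm : MeasurableSet {η | R η ≤ t * A} := measurableSet_le hRm measurable_const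
  have h1 : ∀ η, ι η ≤ ι η * io (R η ≤ t * A) + ι η * R η * (1 / (t * A)) := by
    intro η
    by_cases h2 : R η ≤ t * A
    · rw [io_of h2, mul_one]
      have h3 : 0 ≤ ι η * R η * (1 / (t * A)) := by
        have := mul_nonneg (hι0 η) (hR0 η)
        positivity
      linarith
    · rw [io_not h2, mul_zero, zero_add, mul_assoc]
      rw [not_le] at h2
      have h3 : 1 ≤ R η * (1 / (t * A)) := by
        rw [mul_one_div, one_le_div (by positivity)]
        exact h2.le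
      nlinarith [hι0 η]
  have hi : Integrable (fun η => ι η * R η) (law μ) := by
    refine hRi.mono' (hιm.mul hRm).aestronglyMeasurable (Filter.Eventually.of_forall fun η => ?_)
    rw [Real.norm_eq_abs, abs_of_nonneg (mul_nonneg (hι0 η) (hR0 η))]
    exact mul_le_of_le_one_left (hR0 η) (hι1 η)
  have hιi : Integrable ι (law μ) := by
    refine (integrable_const (1 : ℝ)).mono' hιm.aestronglyMeasurable (Filter.Eventually.of_forall fun η => ?_)
    rw [Real.norm_eq_abs, abs_of_nonneg (hι0 η)]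
    exact hι1 η
  have hii : Integrable (fun η => ι η * io (R η ≤ t * A)) (law μ) := by
    refine hιi.mono' (hιm.mul (measurable_io hm)).aestronglyMeasurable (Filter.Eventually.of_forall fun η => ?_)
    rw [Real.norm_eq_abs, abs_of_nonneg (mul_nonneg (hι0 η) (io_nonneg _))]
    exact mul_le_of_le_one_right (hι0 η) (io_le_one _)
  have h2 : ∫ η, ι η ∂(law μ) ≤ ∫ η, (ι η * io (R η ≤ t * A) + ι η * R η * (1 / (t * A))) ∂(law μ) :=
    integral_mono hιi (hii.add (hi.mul_const _)) h1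
  have h3 : ∫ η, (ι η * io (R η ≤ t * A) + ι η * R η * (1 / (t * A))) ∂(law μ) =
      ∫ η, ι η * io (R η ≤ t * A) ∂(law μ) + (∫ η, ι η * R η ∂(law μ)) * (1 / (t * A)) := by
    rw [integral_add hii (hi.mul_const _), integral_mul_const]
  rw [h3] at h2
  have h4 : (∫ η, ι η * R η ∂(law μ)) * (1 / (t * A)) ≤ (A * ∫ η, ι η ∂(law μ)) * (1 / (t * A)) :=
    mul_le_mul_of_nonneg_right h (by positivity)
  have h5 : (A * ∫ η, ι η ∂(law μ)) * (1 / (t * A)) = (∫ η, ι η ∂(law μ)) / t := by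
    field_simp
  linarith

/-- The average over the end point of the bad luck afterwards. -/
def Av (μ : Measure ℝ) (s : ℝ) (g : ℤ → Env → ℝ) (l m : ℕ) (η : Env) : ℝ :=
  ∑ k ∈ Finset.Icc (0 : ℤ) l, g k η * max (-V μ s η ((l : ℤ), k) m) 0

theorem Av_nonneg {g : ℤ → Env → ℝ} (hg0 : ∀ k η, 0 ≤ g k η) (l m : ℕ) (η : Env) : 0 ≤ Av μ s g l m η :=
  Finset.sum_nonneg fun k _ => mul_nonneg (hg0 k η) (le_max_right _ _)

theorem measurable_Av {g : ℤ → Env → ℝ} (l m : ℕ) (hgm : ∀ k, Measurable (g k)) : Measurable (Av μ s g l m) :=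
  Finset.measurable_sum _ fun k _ => (hgm k).mul (((Sub_V _ _).neg.max (Sub.const 0)).1)

theorem integrable_Av (hEM : Pool.Agent.W_7d29a1_h47.EM μ) {g : ℤ → Env → ℝ} (l m : ℕ) (hgm : ∀ k, Measurable (g k))
    (hg0 : ∀ k η, 0 ≤ g k η) (hg1 : ∀ k η, g k η ≤ 1) : Integrable (Av μ s g l m) (law μ) := by
  unfold Av
  refine integrable_finsetSum _ fun k _ => ?_
  have hS : Sub fun η => max (-V μ s η ((l : ℤ), k) m) 0 := (Sub_V _ _).neg.max (Sub.const 0)
  refine (hS.integrable hEM).mono' ((hgm k).mul hS.1).aestronglyMeasurable (Filter.Eventually.of_forall fun η => ?_)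
  rw [Real.norm_eq_abs, abs_of_nonneg (mul_nonneg (hg0 k η) (le_max_right _ _))]
  exact mul_le_of_le_one_left (le_max_right _ _) (hg1 k η)

/-- The mean of the average: the weights depend on the rows `≤ l`, the bad luck on the rows `> l`. -/
theorem integral_Av (hEM : Pool.Agent.W_7d29a1_h47.EM μ) {g : ℤ → Env → ℝ} (l m : ℕ) (hgm : ∀ k, Measurable (g k))
    (hg0 : ∀ k η, 0 ≤ g k η) (hg1 : ∀ k η, g k η ≤ 1) (hgd : ∀ k, DependsOn (g k) (rows 0 (l : ℤ)))
    {ι : Env → ℝ} (hι : ∀ η, ∑ k ∈ Finset.Icc (0 : ℤ) l, g k η = ι η) {A : ℝ}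
    (hA : ∫ η, max (-V μ s η 0 m) 0 ∂(law μ) ≤ A) :
    ∫ η, Av μ s g l m η ∂(law μ) ≤ A * ∫ η, ι η ∂(law μ) := by
  have hS : ∀ k : ℤ, Sub fun η => max (-V μ s η ((l : ℤ), k) m) 0 := fun k => (Sub_V _ _).neg.max (Sub.const 0)
  have hgi : ∀ k, Integrable (g k) (law μ) := fun k => by
    refine (integrable_const (1 : ℝ)).mono' (hgm k).aestronglyMeasurable (Filter.Eventually.of_forall fun η => ?_)
    rw [Real.norm_eq_abs, abs_of_nonneg (hg0 k η)]
    exact hg1 k η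
  unfold Av
  rw [integral_finsetSum _ fun k _ => ?_]
  · have h1 : ∀ k ∈ Finset.Icc (0 : ℤ) l, ∫ η, g k η * max (-V μ s η ((l : ℤ), k) m) 0 ∂(law μ) ≤
        A * ∫ η, g k η ∂(law μ) := by
      intro k _
      have hd : DependsOn (fun η : Env => max (-V μ s η ((l : ℤ), k) m) 0) (rows (l : ℤ) ((l : ℤ) + m)) := by
        intro η η' h
        have h3 : V μ s η ((l : ℤ), k) m = V μ s η' ((l : ℤ), k) m := V_dep_rows (μ := μ) (s := s) _ _ h
        show max (-_) 0 = max (-_) 0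
        rw [h3]
      rw [integral_indep (hgm k) (hS k).1 (hgd k) hd (rows_disj le_rfl), mul_comm]
      refine mul_le_mul_of_nonneg_right ?_ (integral_nonneg fun η => hg0 k η)
      rw [integral_V_fun (μ := μ) (s := s) (f := fun x => max (-x) 0) (by fun_prop)]
      exact hA
    refine (Finset.sum_le_sum h1).trans (le_of_eq ?_)
    rw [← Finset.mul_sum, ← integral_finsetSum _ fun k _ => hgi k]
    congr 1
    exact integral_congr_ae (Filter.Eventually.of_forall fun η => hι η)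
  · refine ((hS k).integrable hEM).mono' ((hgm k).mul (hS k).1).aestronglyMeasurable (Filter.Eventually.of_forall fun η => ?_)
    rw [Real.norm_eq_abs, abs_of_nonneg (mul_nonneg (hg0 k η) (le_max_right _ _))]
    exact mul_le_of_le_one_left (le_max_right _ _) (hg1 k η)

/-- Jensen, for general weights `c k ≥ 0` of the end point `(l, k)`. -/
theorem jensen_end (η : Env) (l m : ℕ) {c : ℤ → ℝ} (hc : ∀ k, 0 ≤ c k) (hC : 0 < ∑ k ∈ Finset.Icc (0 : ℤ) l, c k) :
    (∑ k ∈ Finset.Icc (0 : ℤ) l, c k) * Real.exp (-∑ k ∈ Finset.Icc (0 : ℤ) l,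
      (c k / ∑ j ∈ Finset.Icc (0 : ℤ) l, c j) * max (-V μ s η ((l : ℤ), k) m) 0) ≤
      ∑ k ∈ Finset.Icc (0 : ℤ) l, c k * Real.exp (V μ s η ((l : ℤ), k) m) := by
  obtain ⟨S, hS⟩ : ∃ S : ℝ, S = ∑ k ∈ Finset.Icc (0 : ℤ) l, c k := ⟨_, rfl⟩
  obtain ⟨M, hM⟩ : ∃ M : ℝ, M = -∑ k ∈ Finset.Icc (0 : ℤ) l, (c k / S) * max (-V μ s η ((l : ℤ), k) m) 0 := ⟨_, rfl⟩
  rw [← hS] at hC ⊢
  rw [← hM]
  have h1 : ∀ k ∈ Finset.Icc (0 : ℤ) l, Real.exp M * (c k * (1 + -max (-V μ s η ((l : ℤ), k) m) 0 - M)) ≤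
      c k * Real.exp (V μ s η ((l : ℤ), k) m) := by
    intro k _
    have h2 : 1 + -max (-V μ s η ((l : ℤ), k) m) 0 - M ≤ Real.exp (-max (-V μ s η ((l : ℤ), k) m) 0 - M) := by
      linarith [Real.add_one_le_exp (-max (-V μ s η ((l : ℤ), k) m) 0 - M)]
    have h3 : Real.exp M * Real.exp (-max (-V μ s η ((l : ℤ), k) m) 0 - M) ≤ Real.exp (V μ s η ((l : ℤ), k) m) := by
      rw [← Real.exp_add]
      refine Real.exp_le_exp.2 ?_
      have := le_max_left (-V μ s η ((l : ℤ), k) m) 0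
      linarith
    calc Real.exp M * (c k * (1 + -max (-V μ s η ((l : ℤ), k) m) 0 - M))
        = c k * (Real.exp M * (1 + -max (-V μ s η ((l : ℤ), k) m) 0 - M)) := by ring
      _ ≤ c k * (Real.exp M * Real.exp (-max (-V μ s η ((l : ℤ), k) m) 0 - M)) :=
        mul_le_mul_of_nonneg_left (mul_le_mul_of_nonneg_left h2 (Real.exp_pos _).le) (hc k)
      _ ≤ c k * Real.exp (V μ s η ((l : ℤ), k) m) := mul_le_mul_of_nonneg_left h3 (hc k)
  refine le_trans (le_of_eq ?_) (Finset.sum_le_sum h1)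
  rw [← Finset.mul_sum]
  have h2 : ∑ k ∈ Finset.Icc (0 : ℤ) l, c k * (1 + -max (-V μ s η ((l : ℤ), k) m) 0 - M) =
      (1 - M) * S + S * M := by
    have h3 : ∑ k ∈ Finset.Icc (0 : ℤ) l, c k * max (-V μ s η ((l : ℤ), k) m) 0 = -(S * M) := by
      rw [hM, mul_neg, neg_neg, Finset.mul_sum]
      refine Finset.sum_congr rfl fun k _ => ?_
      field_simp
    have h4 : ∀ k ∈ Finset.Icc (0 : ℤ) l, c k * (1 + -max (-V μ s η ((l : ℤ), k) m) 0 - M) =
        (1 - M) * c k - c k * max (-V μ s η ((l : ℤ), k) m) 0 := fun k _ => by ring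
    rw [Finset.sum_congr rfl h4, Finset.sum_sub_distrib, ← Finset.mul_sum, ← hS, h3]
    ring
  rw [h2]
  ring

end

end Pool.Agent.W_7d29a1_S42
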