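import Pool.Agent.W_7d29a1_S42.Cont
import Pool.Agent.W_7d29a1_h21g.Place

/-!
Theorem S (proofs row 628), (B): luck at every time. (helper42)
-/

namespace Pool.Agent.W_7d29a1_S42

open MeasureTheory ProbabilityTheory Filter Topology
open Pool.Agent.W_7d29a1_F Pool.Agent.W_7d29a1_h60 Pool.Agent.W_7d29a1_L78 Pool.Agent.W_7d29a1_h4g Pool.Agent.W_7d29a1_G
open Pool.Agent.W_7d29a1_h21g

noncomputable section

variable {μ : Measure ℝ} [IsProbabilityMeasure μ] {s : ℝ}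

/-- The bad luck has mean at most the unit. -/
theorem neg_V_le_EE (hEM : Pool.Agent.W_7d29a1_h47.EM μ) {m n : ℕ} (h : m ≤ n) :
    ∫ η, max (-V μ 0 η 0 m) 0 ∂(law μ) ≤ EE μ n := by
  refine le_trans (integral_mono ?_ ?_ fun η => ?_) (ref_le_EE h)
  · exact ((Sub_V (μ := μ) (s := 0) 0 m).neg.max (Sub.const 0)).integrable hEM
  · exact (Sub_Xp 0 (md_nonneg m) (md_le m)).integrable hEM
  · refine max_le_max_right 0 ?_
    have := neg_X_le_V (μ := μ) (s := 0) η 0 (md_nonneg m) (md_le m)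
    linarith

/-- The luck continues. -/
theorem ext_V (hEM : Pool.Agent.W_7d29a1_h47.EM μ) (l m : ℕ) {A : ℝ} (hA : 0 < A)
    (href : ∫ η, max (-V μ s η 0 m) 0 ∂(law μ) ≤ A) (Y : ℝ) :
    (law μ).real {η | Y ≤ V μ s η 0 l} / 2 ≤ (law μ).real {η | Y - 4 * A ≤ V μ s η 0 (l + m)} := by
  have hBd : ∀ η η' : Env, (∀ p ∈ rows 0 (l : ℤ), η p = η' p) → (Y ≤ V μ s η 0 l ↔ Y ≤ V μ s η' 0 l) := by
    intro η η' h
    have h1 : V μ s η 0 l = V μ s η' 0 l := by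
      refine V_dep_rows (μ := μ) (s := s) 0 l fun x hx => h x (rows_mono le_rfl ?_ hx)
      show (0 : ℤ) + (l : ℤ) ≤ _
      rw [zero_add]
    rw [h1]
  have hcd : ∀ k : ℤ, DependsOn (fun η : Env => W μ s η 0 l k) (rows 0 (l : ℤ)) := by
    intro k η η' h
    refine W_dep_rows (μ := μ) (s := s) 0 l k fun x hx => h x (rows_mono le_rfl ?_ hx)
    show (0 : ℤ) + (l : ℤ) ≤ _
    rw [zero_add]
  have hsum : ∀ η : Env, ∑ k ∈ Finset.Icc (0 : ℤ) l, W μ s η 0 l k = Real.exp (V μ s η 0 l) := fun η => by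
    rw [exp_V]
    rfl
  have h := cont (μ := μ) (s := s) hEM l m (B := fun η => Y ≤ V μ s η 0 l) (G := fun _ => True)
    (c := fun k η => W μ s η 0 l k) (measurableSet_le measurable_const (measurable_V 0 l)) hBd
    (fun k => measurable_W 0 l k) (fun k η => W_nonneg η 0 l k)
    (fun k hk η => W_eq_zero η 0 fun h => hk (Finset.mem_Icc.2 h)) hcd
    (fun η _ => by
      show 0 < ∑ k ∈ Finset.Icc (0 : ℤ) l, W μ s η 0 l k
      rw [hsum]
      exact Real.exp_pos _) hA href MeasurableSet.univ (fun _ _ _ => Iff.rfl) (by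
      have : (law μ).real {η : Env | True} = 1 := by
        have e : {η : Env | True} = Set.univ := by ext; simp
        rw [e, probReal_univ]
      rw [this]
      norm_num)
  refine h.trans (measureReal_mono (fun η hη => ?_) (measure_ne_top _ _))
  obtain ⟨h1, -, h2⟩ := hη
  rw [Set.mem_ofPred_eq]
  have h3 := jensen_end (μ := μ) (s := s) η l m (c := fun k => W μ s η 0 l k) (fun k => W_nonneg η 0 l k) (by
    rw [hsum]
    exact Real.exp_pos _)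
  have h4 : ∑ k ∈ Finset.Icc (0 : ℤ) l, W μ s η 0 l k * Real.exp (V μ s η ((l : ℤ), k) m) =
      Real.exp (V μ s η 0 (l + m)) := by
    rw [exp_V_add]
    refine Finset.sum_congr rfl fun k _ => ?_
    have e : ((l : ℤ), k) = ((0 : Pt).1 + (l : ℤ), (0 : Pt).2 + k) := by simp
    rw [e]
  rw [h4, hsum, ← Real.exp_add] at h3
  have h5 := Real.exp_le_exp.1 h3
  have h2' : ∑ k ∈ Finset.Icc (0 : ℤ) l,
      (W μ s η 0 l k / ∑ j ∈ Finset.Icc (0 : ℤ) l, W μ s η 0 l j) * max (-V μ s η ((l : ℤ), k) m) 0 ≤ 4 * A := h2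
  rw [hsum] at h2'
  have h1' : Y ≤ V μ s η 0 l := h1
  linarith

theorem EE_pow (hdbl : ∀ n : ℕ, EE μ (2 * n) ≤ 2 * EE μ n) (n j : ℕ) : EE μ (2 ^ j * n) ≤ 2 ^ j * EE μ n := by
  induction j with
  | zero => simp
  | succ j ih =>
    have h1 := hdbl (2 ^ j * n)
    have e1 : 2 * (2 ^ j * n) = 2 ^ (j + 1) * n := by ring
    rw [e1] at h1
    calc EE μ (2 ^ (j + 1) * n) ≤ 2 * EE μ (2 ^ j * n) := h1
      _ ≤ 2 * (2 ^ j * EE μ n) := by linarith
      _ = 2 ^ (j + 1) * EE μ n := by ring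

/-- **Luck at every time**: if all scales are soft at one level, the luck reaches any number of units with positive
probability. -/
theorem luck_all (hEM : Pool.Agent.W_7d29a1_h47.EM μ) (hnd : Pool.Agent.W_7d29a1_h47.Nondeg μ)
    (hdbl : ∀ n : ℕ, EE μ (2 * n) ≤ 2 * EE μ n) (hinf : Tendsto (EE μ) atTop atTop) {α : ℝ} {x₁ : ℕ}
    (hsoft : ∀ x, x₁ ≤ x → Sf μ x α) {Cv : ℝ} (hCv : 0 < Cv) {n₀ : ℕ}
    (hmom : ∀ n, n₀ ≤ n → ∀ l, l ≤ n → ∫ η, (max (V μ 0 η 0 l) 0) ^ 2 ∂(law μ) ≤ (Cv * EE μ n) ^ 2) (K : ℝ) :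
    ∃ (p : ℝ) (n₁ : ℕ), 0 < p ∧ ∀ n, n₁ ≤ n → p ≤ (law μ).real {η | K * EE μ n ≤ V μ 0 η 0 n} := by
  obtain ⟨k1, hk1⟩ : ∃ k1 : ℕ, α ≤ k1 := exists_nat_ge α
  obtain ⟨b, hb⟩ : ∃ b : ℝ, b = 2 ^ (k1 + 1) := ⟨_, rfl⟩
  have hb0 : 0 < b := by rw [hb]; positivity
  have hKa := abs_nonneg K
  obtain ⟨p1, U₀, hp1, hluck⟩ := luck_V hEM hnd α (K := b * (|K| + 4)) (Cv := Cv * b) (by positivity) (by positivity)
  obtain ⟨x₂, hx₂⟩ := (hinf.eventually_ge_atTop U₀).exists_forall_of_atTop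
  refine ⟨p1 / 2, max n₀ (2 ^ (x₁ + x₂ + k1 + 1)), by positivity, fun n hn => ?_⟩
  have hn0 : n₀ ≤ n := (le_max_left _ _).trans hn
  have hn1 : 2 ^ (x₁ + x₂ + k1 + 1) ≤ n := (le_max_right _ _).trans hn
  have hnne : n ≠ 0 := by
    have : 0 < 2 ^ (x₁ + x₂ + k1 + 1) := by positivity
    omega
  obtain ⟨y, hy⟩ : ∃ y : ℕ, y = Nat.log 2 n := ⟨_, rfl⟩
  have hy1 : 2 ^ y ≤ n := by rw [hy]; exact Nat.pow_log_le_self 2 hnne
  have hy2 : n < 2 ^ (y + 1) := by rw [hy]; exact Nat.lt_pow_succ_log_self (by norm_num) n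
  have hy3 : x₁ + x₂ + k1 + 1 ≤ y := by
    rw [hy]
    exact Nat.le_log_of_pow_le (by norm_num) hn1
  obtain ⟨x, hx⟩ : ∃ x : ℕ, y = x + k1 := ⟨y - k1, by omega⟩
  have hx1 : x₁ ≤ x := by omega
  have hx2 : x₂ ≤ x := by omega
  have hE0 : 0 < EE μ (2 ^ x) := EE_pos _
  have hEn : 0 < EE μ n := EE_pos _
  have hEE : EE μ n ≤ b * EE μ (2 ^ x) := by
    have h1 : EE μ n ≤ EE μ (2 ^ (k1 + 1) * 2 ^ x) := by
      refine EE_mono ?_
      have e : 2 ^ (k1 + 1) * 2 ^ x = 2 ^ (y + 1) := by rw [hx]; ring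
      rw [e]
      exact hy2.le
    refine h1.trans ?_
    rw [hb]
    exact EE_pow hdbl _ _
  have hU : U₀ ≤ EE μ (2 ^ x) := hx₂ (2 ^ x) (hx2.trans Nat.lt_two_pow_self.le)
  have hlen : ∀ l : ℕ, (l : ℝ) ≤ (2 : ℝ) ^ ((x : ℝ) + α) → l ≤ n := by
    intro l hl
    have h1 : (l : ℝ) ≤ ((2 ^ y : ℕ) : ℝ) := by
      refine hl.trans ?_
      rw [hx]
      push_cast
      rw [← Real.rpow_natCast]
      refine Real.rpow_le_rpow_of_exponent_le one_le_two ?_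
      push_cast
      linarith
    exact (by exact_mod_cast h1 : l ≤ 2 ^ y).trans hy1
  obtain ⟨l, hl, hp⟩ := hluck x hU (hsoft x hx1) (fun l hl => by
    refine (hmom n hn0 l (hlen l hl)).trans (pow_le_pow_left₀ (by positivity) ?_ 2)
    calc Cv * EE μ n ≤ Cv * (b * EE μ (2 ^ x)) := mul_le_mul_of_nonneg_left hEE hCv.le
      _ = Cv * b * EE μ (2 ^ x) := by ring)
  have hln := hlen l hl
  have h1 := ext_V (μ := μ) (s := 0) hEM l (n - l) hEn (neg_V_le_EE hEM (Nat.sub_le n l)) (b * (|K| + 4) * EE μ (2 ^ x))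
  rw [show l + (n - l) = n by omega] at h1
  have h2 : (law μ).real {η | b * (|K| + 4) * EE μ (2 ^ x) - 4 * EE μ n ≤ V μ 0 η 0 n} ≤
      (law μ).real {η | K * EE μ n ≤ V μ 0 η 0 n} := by
    refine measureReal_mono (fun η hη => ?_) (measure_ne_top _ _)
    rw [Set.mem_ofPred_eq] at hη ⊢
    refine le_trans ?_ hη
    have h3 : (|K| + 4) * EE μ n ≤ (|K| + 4) * (b * EE μ (2 ^ x)) := mul_le_mul_of_nonneg_left hEE (by positivity)
    have h4 : K * EE μ n ≤ |K| * EE μ n := mul_le_mul_of_nonneg_right (le_abs_self K) hEn.le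
    nlinarith
  linarith

end

end Pool.Agent.W_7d29a1_S42
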