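import Pool.Agent.W_7d29a1_S42.LuckN

/-!
Theorem S (proofs row 628): tubes and the weight of the paths in a tube. In the coordinates `(t, y)` the walk is
`S_t = 2 y - t`, so the tube `tz 0 r` is `|S_t| ≤ r`. (helper42)
-/

namespace Pool.Agent.W_7d29a1_S42

open MeasureTheory ProbabilityTheory Filter Topology
open Pool.Agent.W_7d29a1_F Pool.Agent.W_7d29a1_h60 Pool.Agent.W_7d29a1_L78 Pool.Agent.W_7d29a1_h4g Pool.Agent.W_7d29a1_G
open Pool.Agent.W_7d29a1_h21g

noncomputable section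

/-- The tube of half width `r` (in the coordinate `2 y - t`) around the direction `0` line through `a`. -/
def tz (a : Pt) (r : ℤ) : Set Pt := {p | |2 * (p.2 - a.2) - (p.1 - a.1)| ≤ r}

/-- The weight of the paths of `n` steps from `a` in `R`. -/
def ZT (μ : Measure ℝ) (s : ℝ) (R : Set Pt) (η : Env) (a : Pt) (n : ℕ) : ℝ :=
  ∑ y ∈ Finset.Icc (0 : ℤ) n, WR μ s R η a n y

variable {μ : Measure ℝ} {s : ℝ}

theorem ZT_nonneg (R : Set Pt) (η : Env) (a : Pt) (n : ℕ) : 0 ≤ ZT μ s R η a n :=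
  Finset.sum_nonneg fun y _ => WR_nonneg R η a n y

theorem ZT_le (R : Set Pt) (η : Env) (a : Pt) (n : ℕ) : ZT μ s R η a n ≤ Real.exp (V μ s η a n) := by
  rw [exp_V]
  exact Finset.sum_le_sum fun y _ => WR_le_W R η a n y

theorem measurable_ZT (R : Set Pt) (a : Pt) (n : ℕ) : Measurable fun η : Env => ZT μ s R η a n :=
  Finset.measurable_sum _ fun y _ => measurable_WR R a n y

theorem ZT_dep (R : Set Pt) (a : Pt) (n : ℕ) :
    DependsOn (fun η : Env => ZT μ s R η a n) (rows a.1 (a.1 + n) ∩ R) := by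
  intro η η' h
  refine Finset.sum_congr rfl fun y _ => ?_
  exact WR_dep (μ := μ) (s := s) R a n y fun p hp => h p ⟨⟨hp.1.1, hp.1.2.1⟩, hp.2⟩

theorem WR_out {R : Set Pt} (η : Env) (a : Pt) {n : ℕ} (hn : 1 ≤ n) {y : ℤ} (h : (a.1 + n, a.2 + y) ∉ R) :
    WR μ s R η a n y = 0 := by
  obtain ⟨m, rfl⟩ : ∃ m, n = m + 1 := ⟨n - 1, by omega⟩
  unfold WR
  have h1 : Zr R η a (m + 1) y = 0 := by
    have h' : (a.1 + ((m : ℤ) + 1), a.2 + y) ∉ R := by
      push_cast at h
      exact h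
    show R.indicator (fun p => Real.exp (η p)) (a.1 + ((m : ℤ) + 1), a.2 + y) * (Zr R η a m y + Zr R η a m (y - 1)) = 0
    rw [Set.indicator_of_notMem h', zero_mul]
  rw [h1, mul_zero]

/-- The paths in `R` stay in `R` during the first `l` steps. -/
theorem ZT_add_le (R : Set Pt) (η : Env) (l m : ℕ) : ZT μ s R η 0 (l + m) ≤
    ∑ k ∈ Finset.Icc (0 : ℤ) l, WR μ s R η 0 l k * Real.exp (V μ s η ((l : ℤ), k) m) := by
  unfold ZT
  have h1 : ∀ y ∈ Finset.Icc (0 : ℤ) ((l + m : ℕ) : ℤ), WR μ s R η 0 (l + m) y ≤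
      ∑ k ∈ Finset.Icc (0 : ℤ) l, WR μ s R η 0 l k * W μ s η ((l : ℤ), k) m (y - k) := by
    intro y _
    rw [WR_add]
    refine Finset.sum_le_sum fun k _ => mul_le_mul_of_nonneg_left ?_ (WR_nonneg R η 0 l k)
    have e : ((0 : Pt).1 + (l : ℤ), (0 : Pt).2 + k) = ((l : ℤ), k) := by simp
    rw [e]
    exact WR_le_W R η _ m _
  refine (Finset.sum_le_sum h1).trans ?_
  rw [Finset.sum_comm]
  refine Finset.sum_le_sum fun k hk => ?_
  rw [← Finset.mul_sum]
  refine mul_le_mul_of_nonneg_left ?_ (WR_nonneg R η 0 l k)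
  rw [Finset.mem_Icc] at hk
  rw [exp_V]
  unfold WS
  have h2 : ∑ y ∈ Finset.Icc (0 : ℤ) m, W μ s η ((l : ℤ), k) m y =
      ∑ Y ∈ Finset.Icc k (k + m), W μ s η ((l : ℤ), k) m (Y - k) := by
    refine Finset.sum_nbij' (fun y => y + k) (fun Y => Y - k) ?_ ?_ ?_ ?_ ?_
    · intro y hy
      rw [Finset.mem_Icc] at hy ⊢
      omega
    · intro Y hY
      rw [Finset.mem_Icc] at hY ⊢
      omega
    · intro y _
      show y + k - k = y
      omega
    · intro Y _
      show Y - k + k = Y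
      omega
    · intro y _
      show W μ s η ((l : ℤ), k) m y = W μ s η ((l : ℤ), k) m (y + k - k)
      rw [add_sub_cancel_right]
  rw [h2]
  refine le_of_eq (Finset.sum_subset ?_ ?_).symm
  · intro Y hY
    rw [Finset.mem_Icc] at hY ⊢
    push_cast
    omega
  · intro Y _ hY
    refine W_eq_zero η _ ?_
    rintro ⟨h3, h4⟩
    apply hY
    rw [Finset.mem_Icc]
    omega

/-- One point, then a line. -/
theorem X_ZT_le (R : Set Pt) (η : Env) (m n : ℕ) {y : ℤ} (h0 : 0 ≤ y) (h1 : y ≤ m) :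
    Real.exp (-X μ s η 0 m y) * ZT μ s R η ((m : ℤ), y) n ≤ Real.exp (V μ s η 0 (m + n)) := by
  have h2 := V_add_ge (μ := μ) (s := s) η 0 m n h0 h1
  have e : ((0 : Pt).1 + (m : ℤ), (0 : Pt).2 + y) = ((m : ℤ), y) := by simp
  rw [e] at h2
  refine (mul_le_mul_of_nonneg_left (ZT_le R η _ n) (Real.exp_pos _).le).trans ?_
  rw [← Real.exp_add]
  exact Real.exp_le_exp.2 h2

/-- The law of the tube weight does not depend on the place. -/
theorem real_ZT_place [IsProbabilityMeasure μ] (a : Pt) (r : ℤ) (n : ℕ) (Y : ℝ) :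
    (law μ).real {η | Y ≤ ZT μ s (tz a r) η a n} = (law μ).real {η | Y ≤ ZT μ s (tz 0 r) η 0 n} := by
  have h := (mp_sh (μ := μ) a)
  have hm : MeasurableSet {η : Env | Y ≤ ZT μ s (tz 0 r) η 0 n} := measurableSet_le measurable_const (measurable_ZT _ _ _)
  have h1 := h.measureReal_preimage hm.nullMeasurableSet
  rw [← h1]
  congr 1
  ext η
  rw [Set.mem_ofPred_eq, Set.mem_preimage, Set.mem_ofPred_eq]
  have h2 : ZT μ s (tz 0 r) (sh a η) 0 n = ZT μ s (tz a r) η a n := by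
    unfold ZT
    refine Finset.sum_congr rfl fun y _ => ?_
    have h3 := WR_sh (μ := μ) (s := s) (tz a r) η 0 a n y
    rw [zero_add] at h3
    rw [← h3]
    congr 1
    ext p
    unfold tz
    simp only [Set.mem_ofPred_eq, Prod.fst_add, Prod.snd_add, Prod.fst_zero, Prod.snd_zero, sub_zero, add_sub_cancel_right]
  rw [h2]

end

end Pool.Agent.W_7d29a1_S42
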