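import Pool.Agent.W_7d29a1_S42.Tub

/-!
Theorem S (proofs row 628), (C): with positive probability the polymer leaves the tube of width `c w`. (helper42)
-/

namespace Pool.Agent.W_7d29a1_S42

open MeasureTheory ProbabilityTheory Filter Topology
open Pool.Agent.W_7d29a1_F Pool.Agent.W_7d29a1_h60 Pool.Agent.W_7d29a1_L78 Pool.Agent.W_7d29a1_h4g Pool.Agent.W_7d29a1_G
open Pool.Agent.W_7d29a1_h21g

noncomputable section

variable {μ : Measure ℝ} [IsProbabilityMeasure μ] {s : ℝ}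

/-- CASE 1: the luck of the first `l` steps is outside the tube. -/
theorem wander_out (hEM : Pool.Agent.W_7d29a1_h47.EM μ) {l m : ℕ} (hl : 1 ≤ l) {r : ℤ} {E K K1 : ℝ} (hE : 1 ≤ E)
    (hK1 : 0 ≤ K1) (hbox : 3 / 4 ≤ (law μ).real {η | ∀ k ∈ Finset.Icc (0 : ℤ) l, |2 * k - l| ≤ r →
      V μ s η ((l : ℤ), k) m ≤ K1 * E})
    (href : ∫ η, max (-V μ s η 0 m) 0 ∂(law μ) ≤ E) :
    (law μ).real {η | (K + K1 + 5) * E ≤ V μ s η 0 l ∧ ZT μ s (tz 0 r) η 0 l < Real.exp (K * E)} / 2 ≤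
      (law μ).real {η | ZT μ s (tz 0 r) η 0 (l + m) < Real.exp (V μ s η 0 (l + m)) / 2} := by
  have hE0 : 0 < E := by linarith
  have hrow : (0 : Pt).1 + (l : ℤ) ≤ (l : ℤ) := by simp
  have hVd : ∀ η η' : Env, (∀ p ∈ rows 0 (l : ℤ), η p = η' p) → V μ s η 0 l = V μ s η' 0 l := by
    intro η η' h
    exact V_dep_rows (μ := μ) (s := s) 0 l fun x hx => h x (rows_mono le_rfl hrow hx)
  have hZd : ∀ η η' : Env, (∀ p ∈ rows 0 (l : ℤ), η p = η' p) →
      ZT μ s (tz 0 r) η 0 l = ZT μ s (tz 0 r) η' 0 l := by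
    intro η η' h
    exact ZT_dep (μ := μ) (s := s) (tz 0 r) 0 l fun x hx => h x (rows_mono le_rfl hrow hx.1)
  have hBm : MeasurableSet {η | (K + K1 + 5) * E ≤ V μ s η 0 l ∧ ZT μ s (tz 0 r) η 0 l < Real.exp (K * E)} :=
    (measurableSet_le measurable_const (measurable_V 0 l)).inter (measurableSet_lt (measurable_ZT _ 0 l) measurable_const)
  have hGm : MeasurableSet {η : Env | ∀ k ∈ Finset.Icc (0 : ℤ) l, |2 * k - l| ≤ r → V μ s η ((l : ℤ), k) m ≤ K1 * E} := by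
    have e : {η : Env | ∀ k ∈ Finset.Icc (0 : ℤ) l, |2 * k - l| ≤ r → V μ s η ((l : ℤ), k) m ≤ K1 * E} =
        ⋂ k ∈ Finset.Icc (0 : ℤ) l, {η : Env | |2 * k - l| ≤ r → V μ s η ((l : ℤ), k) m ≤ K1 * E} := by
      ext η
      simp only [Set.mem_ofPred_eq, Set.mem_iInter]
    rw [e]
    refine Finset.measurableSet_biInter _ fun k _ => ?_
    by_cases hk : |2 * k - (l : ℤ)| ≤ r
    · have e2 : {η : Env | |2 * k - (l : ℤ)| ≤ r → V μ s η ((l : ℤ), k) m ≤ K1 * E} =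
          {η : Env | V μ s η ((l : ℤ), k) m ≤ K1 * E} := by
        ext η
        simp [hk]
      rw [e2]
      exact measurableSet_le (measurable_V _ _) measurable_const
    · have e2 : {η : Env | |2 * k - (l : ℤ)| ≤ r → V μ s η ((l : ℤ), k) m ≤ K1 * E} = Set.univ := by
        ext η
        simp [hk]
      rw [e2]
      exact MeasurableSet.univ
  obtain ⟨c, hc⟩ : ∃ c : ℤ → Env → ℝ, c = fun k η => W μ s η 0 l k - WR μ s (tz 0 r) η 0 l k := ⟨_, rfl⟩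
  have hcsum : ∀ η, ∑ k ∈ Finset.Icc (0 : ℤ) l, c k η = Real.exp (V μ s η 0 l) - ZT μ s (tz 0 r) η 0 l := fun η => by
    rw [hc, exp_V]
    show ∑ k ∈ Finset.Icc (0 : ℤ) l, (W μ s η 0 l k - WR μ s (tz 0 r) η 0 l k) = _
    rw [Finset.sum_sub_distrib]
    rfl
  have hexp1 : Real.exp (K * E) * 2 ≤ Real.exp ((K + K1 + 5) * E) := by
    have h1 : K * E + 1 ≤ (K + K1 + 5) * E := by nlinarith
    have h2 : Real.exp (K * E) * Real.exp 1 ≤ Real.exp ((K + K1 + 5) * E) := by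
      rw [← Real.exp_add]
      exact Real.exp_le_exp.2 h1
    have h3 : (2 : ℝ) ≤ Real.exp 1 := by have := Real.add_one_le_exp (1 : ℝ); linarith
    nlinarith [Real.exp_pos (K * E)]
  have hlow : ∀ η, (K + K1 + 5) * E ≤ V μ s η 0 l ∧ ZT μ s (tz 0 r) η 0 l < Real.exp (K * E) →
      Real.exp ((K + K1 + 5) * E) / 2 < ∑ k ∈ Finset.Icc (0 : ℤ) l, c k η := by
    rintro η ⟨h1, h2⟩
    rw [hcsum]
    have h3 := Real.exp_le_exp.2 h1
    linarith
  have h := cont (μ := μ) (s := s) hEM l m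
    (B := fun η => (K + K1 + 5) * E ≤ V μ s η 0 l ∧ ZT μ s (tz 0 r) η 0 l < Real.exp (K * E))
    (G := fun η => ∀ k ∈ Finset.Icc (0 : ℤ) l, |2 * k - l| ≤ r → V μ s η ((l : ℤ), k) m ≤ K1 * E)
    hBm (fun η η' h => by
      show (_ ≤ V μ s η 0 l ∧ ZT μ s (tz 0 r) η 0 l < _) ↔ (_ ≤ V μ s η' 0 l ∧ ZT μ s (tz 0 r) η' 0 l < _)
      rw [hVd η η' h, hZd η η' h]) (c := c) (fun k => by
      rw [hc]
      exact (measurable_W 0 l k).sub (measurable_WR _ 0 l k)) (fun k η => by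
      rw [hc]
      show 0 ≤ W μ s η 0 l k - WR μ s (tz 0 r) η 0 l k
      have := WR_le_W (μ := μ) (s := s) (tz 0 r) η 0 l k
      linarith) (fun k hk η => by
      rw [hc]
      show W μ s η 0 l k - WR μ s (tz 0 r) η 0 l k = 0
      have h1 : W μ s η 0 l k = 0 := W_eq_zero η 0 fun h => hk (Finset.mem_Icc.2 h)
      have h2 := WR_le_W (μ := μ) (s := s) (tz 0 r) η 0 l k
      have h3 := WR_nonneg (μ := μ) (s := s) (tz 0 r) η 0 l k
      linarith) (fun k η η' h => by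
      rw [hc]
      show W μ s η 0 l k - WR μ s (tz 0 r) η 0 l k = W μ s η' 0 l k - WR μ s (tz 0 r) η' 0 l k
      have h1 : W μ s η 0 l k = W μ s η' 0 l k :=
        W_dep_rows (μ := μ) (s := s) 0 l k fun x hx => h x (rows_mono le_rfl hrow hx)
      have h2 : WR μ s (tz 0 r) η 0 l k = WR μ s (tz 0 r) η' 0 l k :=
        WR_dep (μ := μ) (s := s) (tz 0 r) 0 l k fun x hx => h x (rows_mono le_rfl hrow ⟨hx.1.1, hx.1.2.1⟩)
      rw [h1, h2]) (fun η hη => lt_trans (by positivity) (hlow η hη)) hE0 href hGm (fun η η' h => by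
      refine forall_congr' fun k => forall_congr' fun _ => forall_congr' fun _ => ?_
      have h1 : V μ s η ((l : ℤ), k) m = V μ s η' ((l : ℤ), k) m := V_dep_rows (μ := μ) (s := s) _ _ h
      rw [h1]) hbox
  refine h.trans (measureReal_mono (fun η hη => ?_) (measure_ne_top _ _))
  obtain ⟨hB, hG, hav⟩ := hη
  rw [Set.mem_ofPred_eq]
  have hS := hlow η hB
  have hSp : 0 < ∑ k ∈ Finset.Icc (0 : ℤ) l, c k η := lt_trans (by positivity) hS
  have hj := jensen_end (μ := μ) (s := s) η l m (c := fun k => c k η) (fun k => by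
      rw [hc]
      show 0 ≤ W μ s η 0 l k - WR μ s (tz 0 r) η 0 l k
      have := WR_le_W (μ := μ) (s := s) (tz 0 r) η 0 l k
      linarith) hSp
  have hZ := ZT_add_le (μ := μ) (s := s) (tz 0 r) η l m
  have hV : Real.exp (V μ s η 0 (l + m)) = ∑ k ∈ Finset.Icc (0 : ℤ) l, W μ s η 0 l k * Real.exp (V μ s η ((l : ℤ), k) m) := by
    rw [exp_V_add]
    refine Finset.sum_congr rfl fun k _ => ?_
    have e : ((l : ℤ), k) = ((0 : Pt).1 + (l : ℤ), (0 : Pt).2 + k) := by simp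
    rw [e]
  have hsplit : Real.exp (V μ s η 0 (l + m)) = ∑ k ∈ Finset.Icc (0 : ℤ) l, c k η * Real.exp (V μ s η ((l : ℤ), k) m) +
      ∑ k ∈ Finset.Icc (0 : ℤ) l, WR μ s (tz 0 r) η 0 l k * Real.exp (V μ s η ((l : ℤ), k) m) := by
    rw [hV, ← Finset.sum_add_distrib]
    refine Finset.sum_congr rfl fun k _ => ?_
    rw [hc]
    show _ = (W μ s η 0 l k - WR μ s (tz 0 r) η 0 l k) * _ + _
    ring
  have hin : ∑ k ∈ Finset.Icc (0 : ℤ) l, WR μ s (tz 0 r) η 0 l k * Real.exp (V μ s η ((l : ℤ), k) m) ≤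
      Real.exp (K * E) * Real.exp (K1 * E) := by
    have h1 : ∀ k ∈ Finset.Icc (0 : ℤ) l, WR μ s (tz 0 r) η 0 l k * Real.exp (V μ s η ((l : ℤ), k) m) ≤
        WR μ s (tz 0 r) η 0 l k * Real.exp (K1 * E) := by
      intro k hk
      by_cases hkr : |2 * k - (l : ℤ)| ≤ r
      · exact mul_le_mul_of_nonneg_left (Real.exp_le_exp.2 (hG k hk hkr)) (WR_nonneg _ _ _ _ _)
      · rw [WR_out (μ := μ) (s := s) η 0 hl, zero_mul, zero_mul]
        unfold tz
        rw [Set.mem_ofPred_eq]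
        simpa using hkr
    refine (Finset.sum_le_sum h1).trans ?_
    rw [← Finset.sum_mul]
    exact mul_le_mul_of_nonneg_right hB.2.le (Real.exp_pos _).le
  have hav' : Real.exp (-(4 * E)) ≤ Real.exp (-∑ k ∈ Finset.Icc (0 : ℤ) l,
      (c k η / ∑ j ∈ Finset.Icc (0 : ℤ) l, c j η) * max (-V μ s η ((l : ℤ), k) m) 0) :=
    Real.exp_le_exp.2 (by
      have h1 : ∑ k ∈ Finset.Icc (0 : ℤ) l, (c k η / ∑ j ∈ Finset.Icc (0 : ℤ) l, c j η) *
        max (-V μ s η ((l : ℤ), k) m) 0 ≤ 4 * E := hav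
      linarith)
  have hout : Real.exp ((K + K1 + 5) * E) / 2 * Real.exp (-(4 * E)) <
      ∑ k ∈ Finset.Icc (0 : ℤ) l, c k η * Real.exp (V μ s η ((l : ℤ), k) m) := by
    refine lt_of_lt_of_le ?_ hj
    calc Real.exp ((K + K1 + 5) * E) / 2 * Real.exp (-(4 * E)) < (∑ k ∈ Finset.Icc (0 : ℤ) l, c k η) * Real.exp (-(4 * E)) :=
          mul_lt_mul_of_pos_right hS (Real.exp_pos _)
      _ ≤ _ := mul_le_mul_of_nonneg_left hav' hSp.le
  have hnum : Real.exp (K * E) * Real.exp (K1 * E) ≤ Real.exp ((K + K1 + 5) * E) / 2 * Real.exp (-(4 * E)) := by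
    have h1 : Real.exp ((K + K1 + 5) * E) * Real.exp (-(4 * E)) = Real.exp (K * E) * Real.exp (K1 * E) * Real.exp E := by
      rw [← Real.exp_add, ← Real.exp_add, ← Real.exp_add]
      congr 1
      ring
    have h2 : (2 : ℝ) ≤ Real.exp E := by have := Real.add_one_le_exp E; linarith
    have h3 : 0 < Real.exp (K * E) * Real.exp (K1 * E) := by positivity
    nlinarith
  linarith

/-- CASE 2: the luck of the tube; the same luck occurs in a tube at the side. -/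
theorem wander_in (hEM : Pool.Agent.W_7d29a1_h47.EM μ) {m l : ℕ} {r y1 : ℤ} (hy0 : 0 ≤ y1) (hy1 : y1 ≤ m)
    (hdis : 2 * r < 2 * y1 - m) {E C0 K0 : ℝ} (hE : 1 ≤ E) (hC0 : 0 < C0)
    (hcheap : ∫ η, max (X μ s η 0 m y1) 0 ∂(law μ) ≤ C0 * E)
    (hK0 : 1 / 2 ≤ (law μ).real {η | V μ s η 0 (m + l) ≤ K0 * E}) :
    3 / 8 * (law μ).real {η | Real.exp ((K0 + 8 * C0 + 1) * E) ≤ ZT μ s (tz 0 r) η 0 l} ≤
      (law μ).real {η | ZT μ s (tz 0 r) η 0 (m + l) < Real.exp (V μ s η 0 (m + l)) / 2} := by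
  have hE0 : 0 < E := by linarith
  obtain ⟨a, ha⟩ : ∃ a : Pt, a = ((m : ℤ), y1) := ⟨_, rfl⟩
  have hXS : Sub fun η => max (X μ s η 0 m y1) 0 := Sub_Xp 0 hy0 hy1
  have hFm : MeasurableSet {η | max (X μ s η 0 m y1) 0 ≤ 8 * (C0 * E)} := measurableSet_le hXS.1 measurable_const
  have hF : 7 / 8 ≤ (law μ).real {η | max (X μ s η 0 m y1) 0 ≤ 8 * (C0 * E)} := by
    have h1 := mass_t (μ := μ) (ι := fun _ => (1 : ℝ)) (R := fun η => max (X μ s η 0 m y1) 0) measurable_const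
      (fun _ => zero_le_one) (fun _ => le_rfl) hXS.1 (fun _ => le_max_right _ _) (hXS.integrable hEM)
      (A := C0 * E) (t := 8) (by positivity) (by norm_num) (by simpa using hcheap)
    have h2 : ∫ η, (1 : ℝ) * io (max (X μ s η 0 m y1) 0 ≤ 8 * (C0 * E)) ∂(law μ) =
        (law μ).real {η | max (X μ s η 0 m y1) 0 ≤ 8 * (C0 * E)} := by
      rw [← integral_io_real hFm]
      exact integral_congr_ae (Filter.Eventually.of_forall fun η => one_mul _)
    rw [h2, integral_const, probReal_univ, one_smul] at h1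
    linarith
  have hDm : MeasurableSet {η | ZT μ s (tz 0 r) η 0 (m + l) ≤ Real.exp (K0 * E)} :=
    measurableSet_le (measurable_ZT _ _ _) measurable_const
  have hD : 1 / 2 ≤ (law μ).real {η | ZT μ s (tz 0 r) η 0 (m + l) ≤ Real.exp (K0 * E)} := by
    refine hK0.trans (measureReal_mono (fun η hη => ?_) (measure_ne_top _ _))
    rw [Set.mem_ofPred_eq] at hη ⊢
    exact (ZT_le _ η 0 _).trans (Real.exp_le_exp.2 hη)
  have hDF : 3 / 8 ≤ (law μ).real {η | ZT μ s (tz 0 r) η 0 (m + l) ≤ Real.exp (K0 * E) ∧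
      max (X μ s η 0 m y1) 0 ≤ 8 * (C0 * E)} := by
    have h1 : {η | ZT μ s (tz 0 r) η 0 (m + l) ≤ Real.exp (K0 * E)} ⊆
        {η | ZT μ s (tz 0 r) η 0 (m + l) ≤ Real.exp (K0 * E) ∧ max (X μ s η 0 m y1) 0 ≤ 8 * (C0 * E)} ∪
        {η | ¬ max (X μ s η 0 m y1) 0 ≤ 8 * (C0 * E)} := by
      intro η hη
      by_cases h2 : max (X μ s η 0 m y1) 0 ≤ 8 * (C0 * E)
      · exact Or.inl ⟨hη, h2⟩
      · exact Or.inr h2
    have h2 := (measureReal_mono (μ := law μ) h1 (measure_ne_top _ _)).trans (measureReal_union_le _ _)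
    have h3 : (law μ).real {η | ¬ max (X μ s η 0 m y1) 0 ≤ 8 * (C0 * E)} =
        1 - (law μ).real {η | max (X μ s η 0 m y1) 0 ≤ 8 * (C0 * E)} := probReal_compl_eq_one_sub hFm
    linarith
  have hBm : MeasurableSet {η | Real.exp ((K0 + 8 * C0 + 1) * E) ≤ ZT μ s (tz a r) η a l} :=
    measurableSet_le measurable_const (measurable_ZT _ _ _)
  have hind := real_indep (μ := μ)
    (B := fun η => ZT μ s (tz 0 r) η 0 (m + l) ≤ Real.exp (K0 * E) ∧ max (X μ s η 0 m y1) 0 ≤ 8 * (C0 * E))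
    (G := fun η => Real.exp ((K0 + 8 * C0 + 1) * E) ≤ ZT μ s (tz a r) η a l)
    (R₁ := {p | p ∈ tz 0 r ∨ p.1 ≤ m}) (R₂ := {p | (m : ℤ) < p.1 ∧ p ∈ tz a r}) (hDm.inter hFm) hBm
    (fun η η' h => by
      have h1 : ZT μ s (tz 0 r) η 0 (m + l) = ZT μ s (tz 0 r) η' 0 (m + l) :=
        ZT_dep (μ := μ) (s := s) (tz 0 r) 0 (m + l) fun x hx => h x (Or.inl hx.2)
      have h2 : X μ s η 0 m y1 = X μ s η' 0 m y1 := by
        refine X_dep_rows (μ := μ) (s := s) 0 m y1 fun x hx => h x (Or.inr ?_)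
        have h3 := hx.2
        simpa using h3
      show (ZT μ s (tz 0 r) η 0 (m + l) ≤ _ ∧ max (X μ s η 0 m y1) 0 ≤ _) ↔
        (ZT μ s (tz 0 r) η' 0 (m + l) ≤ _ ∧ max (X μ s η' 0 m y1) 0 ≤ _)
      rw [h1, h2])
    (fun η η' h => by
      have h1 : ZT μ s (tz a r) η a l = ZT μ s (tz a r) η' a l := by
        refine ZT_dep (μ := μ) (s := s) (tz a r) a l fun x hx => h x ⟨?_, hx.2⟩
        have h3 := hx.1.1
        rw [ha] at h3
        exact h3
      show (_ ≤ ZT μ s (tz a r) η a l) ↔ (_ ≤ ZT μ s (tz a r) η' a l)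
      rw [h1]) (by
      rw [Set.disjoint_left]
      rintro p (h1 | h1) ⟨h2, h3⟩
      · unfold tz at h1 h3
        rw [Set.mem_ofPred_eq, abs_le] at h1 h3
        rw [ha] at h3
        simp only [Prod.fst_zero, Prod.snd_zero, sub_zero] at h1
        simp only at h3
        omega
      · omega)
  have hplace := real_ZT_place (μ := μ) (s := s) a r l (Real.exp ((K0 + 8 * C0 + 1) * E))
  rw [hplace] at hind
  have h1 : 3 / 8 * (law μ).real {η | Real.exp ((K0 + 8 * C0 + 1) * E) ≤ ZT μ s (tz 0 r) η 0 l} ≤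
      (law μ).real {η | (ZT μ s (tz 0 r) η 0 (m + l) ≤ Real.exp (K0 * E) ∧ max (X μ s η 0 m y1) 0 ≤ 8 * (C0 * E)) ∧
        Real.exp ((K0 + 8 * C0 + 1) * E) ≤ ZT μ s (tz a r) η a l} := by
    rw [hind]
    exact mul_le_mul_of_nonneg_right hDF measureReal_nonneg
  refine h1.trans (measureReal_mono (fun η hη => ?_) (measure_ne_top _ _))
  obtain ⟨⟨h2, h3⟩, h4⟩ := hη
  rw [Set.mem_ofPred_eq]
  have h5 := X_ZT_le (μ := μ) (s := s) (tz a r) η m l hy0 hy1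
  rw [← ha] at h5
  have h6 : X μ s η 0 m y1 ≤ 8 * (C0 * E) := (le_max_left _ _).trans h3
  have h7 : Real.exp (-(8 * (C0 * E))) * Real.exp ((K0 + 8 * C0 + 1) * E) ≤
      Real.exp (-X μ s η 0 m y1) * ZT μ s (tz a r) η a l :=
    mul_le_mul (Real.exp_le_exp.2 (by linarith)) h4 (Real.exp_pos _).le (Real.exp_pos _).le
  have h8 : Real.exp (-(8 * (C0 * E))) * Real.exp ((K0 + 8 * C0 + 1) * E) = Real.exp (K0 * E) * Real.exp E := by
    rw [← Real.exp_add, ← Real.exp_add]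
    congr 1
    ring
  have h9 : (2 : ℝ) < Real.exp E := by have := Real.add_one_lt_exp (show E ≠ 0 by linarith); linarith
  have h10 := Real.exp_pos (K0 * E)
  nlinarith

/-- **(C)**: with probability at least `3 p / 16` the polymer of `m + l` steps is outside of the tube with probability more than
`1 / 2`. -/
theorem wander (hEM : Pool.Agent.W_7d29a1_h47.EM μ) {m l : ℕ} (hl : 1 ≤ l) {r y1 : ℤ} (hy0 : 0 ≤ y1) (hy1 : y1 ≤ m)
    (hdis : 2 * r < 2 * y1 - m) {E C0 K0 K1 p : ℝ} (hE : 1 ≤ E) (hC0 : 0 < C0) (hK1 : 0 ≤ K1)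
    (hcheap : ∫ η, max (X μ s η 0 m y1) 0 ∂(law μ) ≤ C0 * E)
    (hK0 : 1 / 2 ≤ (law μ).real {η | V μ s η 0 (m + l) ≤ K0 * E})
    (hbox : 3 / 4 ≤ (law μ).real {η | ∀ k ∈ Finset.Icc (0 : ℤ) l, |2 * k - l| ≤ r → V μ s η ((l : ℤ), k) m ≤ K1 * E})
    (href : ∫ η, max (-V μ s η 0 m) 0 ∂(law μ) ≤ E) (hp : 0 ≤ p)
    (hluck : p ≤ (law μ).real {η | (K0 + 8 * C0 + 1 + K1 + 5) * E ≤ V μ s η 0 l}) :
    3 / 16 * p ≤ (law μ).real {η | ZT μ s (tz 0 r) η 0 (m + l) < Real.exp (V μ s η 0 (m + l)) / 2} := by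
  rcases le_or_gt (p / 2) ((law μ).real {η | Real.exp ((K0 + 8 * C0 + 1) * E) ≤ ZT μ s (tz 0 r) η 0 l}) with h | h
  · have h1 := wander_in hEM hy0 hy1 hdis hE hC0 hcheap hK0 (l := l) (s := s)
    linarith
  · have h1 := wander_out hEM hl (K := K0 + 8 * C0 + 1) hE hK1 hbox href (s := s)
    rw [Nat.add_comm] at h1
    have h2 : {η | (K0 + 8 * C0 + 1 + K1 + 5) * E ≤ V μ s η 0 l} ⊆
        {η | (K0 + 8 * C0 + 1 + K1 + 5) * E ≤ V μ s η 0 l ∧ ZT μ s (tz 0 r) η 0 l < Real.exp ((K0 + 8 * C0 + 1) * E)} ∪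
        {η | Real.exp ((K0 + 8 * C0 + 1) * E) ≤ ZT μ s (tz 0 r) η 0 l} := by
      intro η hη
      rcases lt_or_ge (ZT μ s (tz 0 r) η 0 l) (Real.exp ((K0 + 8 * C0 + 1) * E)) with h3 | h3
      · exact Or.inl ⟨hη, h3⟩
      · exact Or.inr h3
    have h3 := (measureReal_mono (μ := law μ) h2 (measure_ne_top _ _)).trans (measureReal_union_le _ _)
    linarith

end

end Pool.Agent.W_7d29a1_S42
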